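import Pool.Agent.Y77.M9.Exc

/-!
# Almost all everywhere locally soluble multihomogeneous forms have a zero
(job M9 of helper716, part 3: port of `Q/Pos.lean`, `Q/Final.lean`)
-/

namespace Pool.Agent.Y77.M9

open Pool.Agent.Y716.Q Pool.Agent.Y716.M

section
variable {r : ℕ} {n : Fin r → ℕ}

/-- exponent of the monomial `∏ i, X ⟨i, 0⟩ ^ d i` -/
noncomputable def s0 (n d : Fin r → ℕ) : Var n →₀ ℕ :=
  Finsupp.equivFunOnFinite.symm (fun a => if a.2.val = 0 then d a.1 else 0)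

theorem s0_apply (d : Fin r → ℕ) (a : Var n) :
    s0 n d a = if a.2.val = 0 then d a.1 else 0 := rfl

theorem s0_isM (d : Fin r → ℕ) (c : ℤ) :
    IsM (n := n) d |(c : ℝ)| (MvPolynomial.monomial (s0 n d) c) := by
  classical
  refine ⟨fun s hs i => ?_, fun s => ?_⟩
  · have h1 : s = s0 n d := by
      rw [MvPolynomial.mem_support_iff, MvPolynomial.coeff_monomial] at hs
      by_contra h
      rw [if_neg (fun h' => h h'.symm)] at hs
      exact hs rfl
    rw [h1]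
    rw [Finset.sum_eq_single (0 : Fin (n i + 1))]
    · rw [s0_apply]; simp
    · intro j _ hj
      rw [s0_apply, if_neg]
      intro h
      exact hj (Fin.ext h)
    · intro h; exact absurd (Finset.mem_univ _) h
  · rw [MvPolynomial.coeff_monomial]
    split_ifs
    · exact le_rfl
    · simp

/-- the special zero -/
def x0 (n : Fin r → ℕ) : Var n → ℤ := fun a => if a.2.val = 0 then 1 else 0

theorem x0_zero (i : Fin r) : x0 n ⟨i, 0⟩ = 1 := by simp [x0]

theorem eval_x0 (d : Fin r → ℕ) (c : ℤ) :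
    MvPolynomial.eval (x0 n) (MvPolynomial.monomial (s0 n d) c) = c := by
  rw [MvPolynomial.eval_monomial, Finsupp.prod_fintype _ _ (fun a => pow_zero _)]
  rw [Finset.prod_eq_one, mul_one]
  intro a _
  rw [s0_apply]
  unfold x0
  split_ifs
  · rw [one_pow]
  · rw [pow_zero]

theorem prim_block_ne {x : Var n → ℤ} (h : ∀ i, Prim (bl x i)) : ∀ i, ∃ j, x ⟨i, j⟩ ≠ 0 := by
  intro i
  by_contra hcon
  push Not at hcon
  apply (h i).ne_zero'
  funext j
  exact hcon j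

open scoped Classical in
/-- A positive proportion of the forms has a zero. -/
theorem solM_positive (hr : 1 ≤ r) {d : Fin r → ℕ} (hd : ∀ i, 2 ≤ d i) (hn : ∀ i, 1 ≤ n i)
    (hcl : ClassStmtM n d) :
    ∃ c : ℝ, 0 < c ∧ ∃ H₀ : ℝ, ∀ H : ℝ, H₀ ≤ H →
      c * ((formsM n d H).card : ℝ) ≤
        (((formsM n d H).filter (fun f => SolM f)).card : ℝ) := by
  obtain ⟨w, hw1, hcl⟩ := hcl (1 / 2) (by positivity)
  obtain ⟨W, hW⟩ : ∃ W : ℕ, W = ∏ p ∈ primesUpTo w, p := ⟨_, rfl⟩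
  have hW1 : 1 ≤ W := by
    rw [hW]
    exact Finset.prod_pos (fun p hp => (mem_primesUpTo.mp hp).2.pos)
  have hWr : (1:ℝ) ≤ W := by exact_mod_cast hW1
  obtain ⟨η, hη0, hη1, hηη₀, H₁, hH₁⟩ := hcl w le_rfl (1 / 4) (by norm_num) (by norm_num) W hW1
    (1 / 4) (by norm_num)
  obtain ⟨M, hM⟩ : ∃ M, (monsM n d).card = M := ⟨_, rfl⟩
  obtain ⟨b, hb⟩ : ∃ b : Fin r, b = ⟨0, hr⟩ := ⟨_, rfl⟩
  have hdb : 0 < d b := by have := hd b; omega
  have hnb := hn b
  obtain ⟨j₁, hj₁⟩ : ∃ j₁ : Fin (n b + 1), j₁.val = 1 := ⟨⟨1, by omega⟩, rfl⟩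
  refine ⟨1 / 2 * (η / (2 * W)) ^ M, by positivity, max H₁ (max (4 * W) (2 * W / η)),
    fun H hH => ?_⟩
  have hH1 : H₁ ≤ H := (le_max_left _ _).trans hH
  have hH2 : 4 * (W : ℝ) ≤ H := (le_max_left _ _).trans ((le_max_right _ _).trans hH)
  have hH3 : 2 * W / η ≤ H := (le_max_right _ _).trans ((le_max_right _ _).trans hH)
  have hH0 : 0 < H := by linarith
  -- the special class
  obtain ⟨m, hm⟩ : ∃ m : ℕ, m = ⌊H / (2 * W)⌋₊ := ⟨_, rfl⟩
  have hm1 : (W : ℝ) * m ≤ H / 2 := by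
    have : (m : ℝ) ≤ H / (2 * W) := by rw [hm]; exact Nat.floor_le (by positivity)
    rw [le_div_iff₀ (by positivity)] at this
    linarith
  have hm2 : H / 2 - W ≤ (W : ℝ) * m := by
    have : H / (2 * W) < m + 1 := by rw [hm]; exact Nat.lt_floor_add_one _
    rw [div_lt_iff₀ (by positivity)] at this
    linarith
  obtain ⟨c₀, hc₀⟩ : ∃ c₀ : ℤ, c₀ = (W : ℤ) * m + 1 := ⟨_, rfl⟩
  have hc₀r : (c₀ : ℝ) = W * m + 1 := by rw [hc₀]; push_cast; rfl
  have hc₀1 : |(c₀ : ℝ)| ≤ 3 / 4 * H := by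
    rw [hc₀r, abs_of_nonneg (by positivity)]
    linarith
  have hc₀2 : 1 / 4 * H ≤ |(c₀ : ℝ)| := by
    rw [hc₀r, abs_of_nonneg (by positivity)]
    linarith
  obtain ⟨G₀, hG₀⟩ : ∃ G₀ : MvPolynomial (Var n) ℤ,
    G₀ = MvPolynomial.monomial (s0 n (dn d b)) c₀ := ⟨_, rfl⟩
  obtain ⟨fc, hfc⟩ : ∃ fc : MvPolynomial (Var n) ℤ,
    fc = G₀ * MvPolynomial.X ⟨b, j₁⟩ := ⟨_, rfl⟩
  have hform : IsM d |(c₀ : ℝ)| fc := by
    rw [hfc, hG₀]
    exact (s0_isM (dn d b) c₀).mul_X hdb j₁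
  obtain ⟨xc, hxc⟩ : ∃ xc : Var n → ℤ, xc = x0 n := ⟨_, rfl⟩
  have hG₀x : MvPolynomial.eval xc G₀ = c₀ := by rw [hG₀, hxc, eval_x0]
  have hxj : xc ⟨b, j₁⟩ = 0 := by
    rw [hxc]
    unfold x0
    rw [if_neg]
    simp only
    omega
  have hfx : MvPolynomial.eval xc fc = 0 := by
    rw [hfc, map_mul, MvPolynomial.eval_X, hxj, mul_zero]
  have hgx : ∀ a, MvPolynomial.eval xc (MvPolynomial.pderiv a fc) =
      if a = ⟨b, j₁⟩ then c₀ else 0 := by
    intro a
    rw [hfc, MvPolynomial.pderiv_mul, map_add, map_mul, map_mul, MvPolynomial.eval_X, hxj,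
      mul_zero, zero_add, hG₀x]
    by_cases ha : a = ⟨b, j₁⟩
    · rw [if_pos ha, ha, MvPolynomial.pderiv_X_self, map_one, mul_one]
    · rw [if_neg ha, MvPolynomial.pderiv_X_of_ne (fun h => ha h.symm), map_zero, mul_zero]
  have hone : ∀ p : ℕ, p.Prime → ∀ i : Fin r, ¬ (p : ℤ) ∣ xc ⟨i, 0⟩ := by
    intro p hp1 i hd'
    rw [hxc, x0_zero] at hd'
    have h3 : (p : ℕ) ∣ 1 := by exact_mod_cast hd'
    exact hp1.one_lt.ne' (Nat.dvd_one.mp h3)
  have hPD : PDataM w fc W 1 xc (fun a => if a = ⟨b, j₁⟩ then c₀ else 0) := by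
    refine ⟨?_, fun p hp1 _ i => ⟨0, hone p hp1 i⟩⟩
    refine { hS := hW1, hJ := one_pos, hJS := one_dvd _, hval := ?_, hgrad := ?_, hPJ := ?_,
             hv := ?_, hprim := ?_, hSW := ?_ }
    · rw [hfx]; exact dvd_zero _
    · intro a
      rw [hgx, Nat.cast_one, one_mul]
    · intro p hp1 hp2
      rw [mul_one, hW]
      exact Finset.dvd_prod_of_mem _ (mem_primesUpTo.mpr ⟨hp2, hp1⟩)
    · intro p hp1 hp2
      refine ⟨⟨b, j₁⟩, ?_⟩
      simp only [if_true]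
      intro hd
      have h1 : (p : ℤ) ∣ (W : ℤ) * m := by
        apply Dvd.dvd.mul_right
        rw [hW]
        exact_mod_cast Finset.dvd_prod_of_mem _ (mem_primesUpTo.mpr ⟨hp2, hp1⟩)
      have h2 := dvd_sub hd h1
      rw [hc₀, add_sub_cancel_left] at h2
      have h3 : (p : ℕ) ∣ 1 := by exact_mod_cast h2
      exact hp1.one_lt.ne' (Nat.dvd_one.mp h3)
    · intro p hp1 hp2
      exact ⟨⟨b, 0⟩, hone p hp1 b⟩
    · intro p hp1 hpS
      rw [hW] at hpS
      obtain ⟨q, hq, hpq⟩ := (Prime.dvd_finset_prod_iff hp1.prime _).mp hpS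
      have h2 := (mem_primesUpTo.mp hq)
      have h3 := (Nat.prime_dvd_prime_iff_eq hp1 h2.2).mp hpq
      rw [h3]; exact h2.1
  obtain ⟨ξ, hξ⟩ : ∃ ξ : Var n → ℝ, ξ = fun a => ((xc a : ℤ) : ℝ) := ⟨_, rfl⟩
  have hae : ∀ F : MvPolynomial (Var n) ℤ,
      MvPolynomial.aeval ξ F = ((MvPolynomial.eval xc F : ℤ) : ℝ) := by
    intro F
    rw [hξ]
    exact Pool.Agent.Y362.MH.aeval_castZ F xc
  have hRD : RDataM d H (1 / 4) η fc ξ ⟨b, j₁⟩ := by
    refine ⟨hform.mono (by linarith), ?_, ?_, ?_, ?_⟩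
    · intro a
      rw [hξ, hxc]
      simp only [x0]
      split_ifs <;> simp
    · intro i
      refine ⟨0, ?_⟩
      rw [hξ, hxc]
      simp only [x0_zero, Int.cast_one]
    · rw [hae, hfx, Int.cast_zero, abs_zero]; positivity
    · rw [hae, hgx, if_pos rfl]
      exact hc₀2
  have key := hH₁ H hH1 fc W 1 xc _ ξ ⟨b, j₁⟩ hPD hRD (by rw [mul_one])
  rw [mul_one] at key
  obtain ⟨G', hG'⟩ : ∃ G', G' = formsM n d (η * H / W) := ⟨_, rfl⟩
  rw [← hG'] at key
  have hsplit : ((G'.filter (fun g => SolM (mem' fc W 1 g))).card : ℝ) +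
      ((G'.filter (fun g => ¬ SolM (mem' fc W 1 g))).card : ℝ) = G'.card := by
    exact_mod_cast Finset.card_filter_add_card_filter_not (s := G') (fun g => SolM (mem' fc W 1 g))
  have h1 : 1 / 2 * (G'.card : ℝ) ≤ ((G'.filter (fun g => SolM (mem' fc W 1 g))).card : ℝ) := by
    have h2 : ((G'.filter (fun g => ¬ SolM (mem' fc W 1 g))).card : ℝ) ≤
        1 / 2 * (G'.card : ℝ) := by
      refine (card_filter_le' _ _ _ (fun g _ hg hz => hg ?_)).trans key
      exact solM_of_zeroNear hz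
    linarith
  have hW0 : (0:ℝ) < W := by linarith
  have h3 : ((G'.filter (fun g => SolM (mem' fc W 1 g))).card : ℝ) ≤
      (((formsM n d H).filter (fun f => SolM f)).card : ℝ) := by
    have : (G'.filter (fun g => SolM (mem' fc W 1 g))).card ≤
        ((formsM n d H).filter (fun f => SolM f)).card := by
      apply Finset.card_le_card_of_injOn (fun g => mem' fc W 1 g)
      · intro g hg
        have hg' := Finset.mem_filter.mp (Finset.mem_coe.mp hg)
        simp only [Finset.mem_coe, Finset.mem_filter]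
        refine ⟨mem_formsM.mpr ?_, hg'.2⟩
        rw [hG'] at hg'
        have h4 := hform.add ((mem_formsM.mp hg'.1).C_mul ((W * 1 : ℕ) : ℤ))
        refine h4.mono ?_
        rw [mul_one, Int.cast_natCast, abs_of_pos hW0]
        have h5 : (W : ℝ) * (η * H / W) = η * H := by field_simp
        rw [h5]
        have h6 : η * H ≤ 1 / 4 * H := mul_le_mul_of_nonneg_right hηη₀ hH0.le
        linarith
      · intro g _ g' _ h
        unfold mem' at h
        have h4 := add_left_cancel h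
        rw [mul_one] at h4
        have h5 : (MvPolynomial.C (W : ℤ) : MvPolynomial (Var n) ℤ) ≠ 0 := by
          rw [Ne, MvPolynomial.C_eq_zero]
          exact_mod_cast (by omega : W ≠ 0)
        exact mul_left_cancel₀ h5 h4
    exact_mod_cast this
  refine le_trans ?_ (h1.trans h3)
  rw [mul_assoc]
  apply mul_le_mul_of_nonneg_left _ (by norm_num)
  have h7 := card_formsM_lower (n := n) d (A := H) (R := η * H / W) (c := η / (2 * W))
    hH0.le (by positivity) (by positivity) (by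
      rw [div_le_iff₀ hη0] at hH3
      have h8 : η / (2 * W) * (2 * H + 1) = η * H / W + η / (2 * W) := by field_simp
      have h9 : 2 ≤ η * H / W := by
        rw [le_div_iff₀ hW0]; linarith
      have h10 : η / (2 * W) ≤ 1 := by
        rw [div_le_one (by positivity)]; linarith
      have h11 : 2 * (η * H / W) = η * H / W + η * H / W := by ring
      linarith)
  rw [hM] at h7
  rw [hG']
  exact h7

/-- real zeros -/
def RealM (f : MvPolynomial (Var n) ℤ) : Prop :=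
  ∃ x : Var n → ℝ, (∀ i : Fin r, ∃ j : Fin (n i + 1), x ⟨i, j⟩ ≠ 0) ∧ MvPolynomial.aeval x f = 0

/-- `p`-adic zeros -/
def PadicM (f : MvPolynomial (Var n) ℤ) : Prop :=
  ∀ p : ℕ, ∀ _ : Fact p.Prime, ∃ x : Var n → Padic p,
    (∀ i : Fin r, ∃ j : Fin (n i + 1), x ⟨i, j⟩ ≠ 0) ∧ MvPolynomial.aeval x f = 0

/-- rational zeros -/
def RatM (f : MvPolynomial (Var n) ℤ) : Prop :=
  ∃ x : Var n → ℚ, (∀ i : Fin r, ∃ j : Fin (n i + 1), x ⟨i, j⟩ ≠ 0) ∧ MvPolynomial.aeval x f = 0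

/-- soluble over all completions -/
def ElsM (f : MvPolynomial (Var n) ℤ) : Prop := RealM f ∧ PadicM f

/-- soluble over all completions and over the rational numbers -/
def NumM (f : MvPolynomial (Var n) ℤ) : Prop := RealM f ∧ PadicM f ∧ RatM f

theorem locSolM_of {d : Fin r → ℕ} {R : ℝ} {f : MvPolynomial (Var n) ℤ} (hf : IsM d R f)
    (h1 : RealM f) (h2 : PadicM f) : LocSolM f := by
  refine ⟨fun p hp E => ?_, ?_⟩
  · haveI : Fact p.Prime := ⟨hp⟩
    exact Pool.Agent.Y362.MH.exists_approx_M f hf.1 (h2 p ⟨hp⟩) E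
  · exact Pool.Agent.Y362.MH.exists_real_M f hf.1 h1

theorem ratM_of_solM {d : Fin r → ℕ} {R : ℝ} {f : MvPolynomial (Var n) ℤ} (hf : IsM d R f)
    (h : SolM f) : RatM f := by
  obtain ⟨x, h1, h2⟩ := h
  exact (Pool.Agent.Y362.MH.rat_iff_M f hf.1).mpr ⟨x, prim_block_ne h1, h2⟩

theorem els_of_ratM {f : MvPolynomial (Var n) ℤ} (h : RatM f) : RealM f ∧ PadicM f :=
  Pool.Agent.Y362.MH.rat_els_M f h

theorem isM_iff_int {d : Fin r → ℕ} {H : ℕ} {f : MvPolynomial (Var n) ℤ} :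
    IsM d (H : ℝ) f ↔ (∀ s ∈ f.support, ∀ i : Fin r, ∑ j : Fin (n i + 1), s ⟨i, j⟩ = d i) ∧
      ∀ s, |f.coeff s| ≤ (H : ℤ) := by
  unfold IsM
  refine and_congr_right (fun _ => forall_congr' (fun m => ?_))
  constructor
  · intro h
    have : ((|f.coeff m| : ℤ) : ℝ) ≤ ((H : ℤ) : ℝ) := by
      rw [Int.cast_abs]; simpa using h
    exact_mod_cast this
  · intro h
    have : ((|f.coeff m| : ℤ) : ℝ) ≤ ((H : ℤ) : ℝ) := by exact_mod_cast h
    rw [Int.cast_abs] at this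
    simpa using this

open scoped Classical in
theorem ncard_eq_filterM (d : Fin r → ℕ) (R : ℝ) (p : MvPolynomial (Var n) ℤ → Prop) :
    ({f : MvPolynomial (Var n) ℤ | IsM d R f ∧ p f} : Set _).ncard =
      ((formsM n d R).filter p).card := by
  rw [← Set.ncard_coe_finset]
  congr 1
  ext f
  simp [mem_formsM]

end

/-- Almost all everywhere locally soluble forms have a zero. -/
theorem main_tendstoM {r : ℕ} (n d : Fin r → ℕ) (hr : 1 ≤ r) (hd : ∀ i, 2 ≤ d i)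
    (hn : ∀ i, 1 ≤ n i) (hcl : ClassStmtM n d) :
    Filter.Tendsto (fun H : ℝ =>
      (({f : MvPolynomial (Var n) ℤ | IsM d H f ∧ NumM f} :
        Set _).ncard : ℝ) /
      (({f : MvPolynomial (Var n) ℤ | IsM d H f ∧ ElsM f} : Set _).ncard : ℝ))
      Filter.atTop (nhds 1) := by
  classical
  obtain ⟨c, hc0, H₁, hH₁⟩ := solM_positive hr hd hn hcl
  rw [Metric.tendsto_atTop]
  intro δ hδ
  obtain ⟨ε, hε⟩ : ∃ ε : ℝ, ε = δ / 2 * c := ⟨_, rfl⟩
  have hε0 : 0 < ε := by rw [hε]; positivity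
  obtain ⟨H₂, hH₂⟩ := exc_countM hr hd hcl hε0
  refine ⟨max (max H₁ H₂) 0, fun H hH => ?_⟩
  have hA1 : H₁ ≤ H := ((le_max_left _ _).trans (le_max_left _ _)).trans hH
  have hA2 : H₂ ≤ H := ((le_max_right _ _).trans (le_max_left _ _)).trans hH
  have hA0 : 0 ≤ H := (le_max_right _ _).trans hH
  have h1 := hH₁ H hA1
  have h2 := hH₂ H hA2
  rw [ncard_eq_filterM, ncard_eq_filterM]
  obtain ⟨Fo, hFo⟩ : ∃ Fo, Fo = formsM n d H := ⟨_, rfl⟩
  have hmem : ∀ f ∈ Fo, IsM d H f := by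
    intro f hf
    rw [hFo] at hf
    exact mem_formsM.mp hf
  have hFo0 : (0:ℝ) < Fo.card := by
    rw [hFo]; exact_mod_cast card_formsM_pos (n := n) d hA0
  rw [← hFo] at h1 h2 ⊢
  have hsolK : Fo.filter (fun f => SolM f) ⊆
      Fo.filter (fun f => NumM f) := by
    intro f hf
    rw [Finset.mem_filter] at hf ⊢
    have h3 := ratM_of_solM (hmem f hf.1) hf.2
    have h4 := els_of_ratM h3
    exact ⟨hf.1, h4.1, h4.2, h3⟩
  have hab : Fo.filter (fun f => NumM f) ⊆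
      Fo.filter (fun f => ElsM f) := by
    intro f hf
    rw [Finset.mem_filter] at hf ⊢
    exact ⟨hf.1, hf.2.1, hf.2.2.1⟩
  have hdiff : (Fo.filter (fun f => ElsM f)) ⊆
      (Fo.filter (fun f => NumM f)) ∪
      (Fo.filter (fun f => LocSolM f ∧ ¬ SolM f)) := by
    intro f hf
    rw [Finset.mem_filter] at hf
    rw [Finset.mem_union, Finset.mem_filter, Finset.mem_filter]
    by_cases hs : RatM f
    · left; exact ⟨hf.1, hf.2.1, hf.2.2, hs⟩
    · right
      exact ⟨hf.1, locSolM_of (hmem f hf.1) hf.2.1 hf.2.2,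
        fun h => hs (ratM_of_solM (hmem f hf.1) h)⟩
  obtain ⟨a, ha⟩ : ∃ a : ℝ,
    a = ((Fo.filter (fun f => NumM f)).card : ℝ) := ⟨_, rfl⟩
  obtain ⟨b, hb⟩ : ∃ b : ℝ, b = ((Fo.filter (fun f => ElsM f)).card : ℝ) :=
    ⟨_, rfl⟩
  have hab' : a ≤ b := by
    rw [ha, hb]; exact_mod_cast Finset.card_le_card hab
  have hba : b ≤ a + ε * Fo.card := by
    have h3 := (Finset.card_le_card hdiff).trans (Finset.card_union_le _ _)
    have h4 : b ≤ a + ((Fo.filter (fun f => LocSolM f ∧ ¬ SolM f)).card : ℝ) := by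
      rw [ha, hb]; exact_mod_cast h3
    linarith
  have hca : c * Fo.card ≤ a := by
    rw [ha]
    refine h1.trans ?_
    exact_mod_cast Finset.card_le_card hsolK
  have ha0 : 0 < a := lt_of_lt_of_le (by positivity) hca
  have hb0 : 0 < b := lt_of_lt_of_le ha0 hab'
  rw [← ha, ← hb, Real.dist_eq]
  have h5 : a / b - 1 = -((b - a) / b) := by field_simp; ring
  rw [h5, abs_neg, abs_of_nonneg (div_nonneg (by linarith) hb0.le), div_lt_iff₀ hb0]
  have h6 : ε * Fo.card ≤ δ / 2 * a := by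
    calc ε * Fo.card = δ / 2 * (c * Fo.card) := by rw [hε]; ring
      _ ≤ δ / 2 * a := mul_le_mul_of_nonneg_left hca (by positivity)
  have h7 : δ / 2 * a < δ * b := by
    have h8 : δ / 2 * a ≤ δ / 2 * b := mul_le_mul_of_nonneg_left hab' (by positivity)
    have h9 : 0 < δ / 2 * b := by positivity
    linarith
  linarith

/-- **Job M9.** The exceptional multidegree forms from the class theorem. -/
theorem main_ratio_M {r : ℕ} (n d : Fin r → ℕ) (hr : 1 ≤ r) (hd : ∀ i, 2 ≤ d i) (hn : ∀ i, 1 ≤ n i)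
    (hcl : ClassStmtM n d) :
    Filter.Tendsto (fun H : ℕ =>
     ((Set.ncard {f : MvPolynomial (Σ i : Fin r, Fin (n i + 1)) ℤ |
        (∀ s ∈ f.support, ∀ i : Fin r, ∑ j : Fin (n i + 1), s ⟨i, j⟩ = d i) ∧
        (∀ s, |f.coeff s| ≤ (H : ℤ)) ∧
        (∃ x : (Σ i : Fin r, Fin (n i + 1)) → ℝ,
          (∀ i : Fin r, ∃ j : Fin (n i + 1), x ⟨i, j⟩ ≠ 0) ∧ MvPolynomial.aeval x f = 0) ∧
        (∀ p : ℕ, ∀ _ : Fact p.Prime, ∃ x : (Σ i : Fin r, Fin (n i + 1)) → Padic p,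
          (∀ i : Fin r, ∃ j : Fin (n i + 1), x ⟨i, j⟩ ≠ 0) ∧ MvPolynomial.aeval x f = 0) ∧
        (∃ x : (Σ i : Fin r, Fin (n i + 1)) → ℚ,
          (∀ i : Fin r, ∃ j : Fin (n i + 1), x ⟨i, j⟩ ≠ 0) ∧ MvPolynomial.aeval x f = 0)} : ℕ) : ℝ) /
     ((Set.ncard {f : MvPolynomial (Σ i : Fin r, Fin (n i + 1)) ℤ |
        (∀ s ∈ f.support, ∀ i : Fin r, ∑ j : Fin (n i + 1), s ⟨i, j⟩ = d i) ∧
        (∀ s, |f.coeff s| ≤ (H : ℤ)) ∧
        (∃ x : (Σ i : Fin r, Fin (n i + 1)) → ℝ,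
          (∀ i : Fin r, ∃ j : Fin (n i + 1), x ⟨i, j⟩ ≠ 0) ∧ MvPolynomial.aeval x f = 0) ∧
        (∀ p : ℕ, ∀ _ : Fact p.Prime, ∃ x : (Σ i : Fin r, Fin (n i + 1)) → Padic p,
          (∀ i : Fin r, ∃ j : Fin (n i + 1), x ⟨i, j⟩ ≠ 0) ∧ MvPolynomial.aeval x f = 0)} : ℕ) : ℝ))
     Filter.atTop (nhds 1) := by
  have h1 := (main_tendstoM n d hr hd hn hcl).comp (tendsto_natCast_atTop_atTop (R := ℝ))
  refine h1.congr (fun H => ?_)
  simp only [Function.comp_apply]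
  congr 2
  · congr 1
    ext f
    simp only [Set.mem_setOf_eq, isM_iff_int, NumM, RealM, PadicM, RatM, and_assoc]
  · congr 1
    ext f
    simp only [Set.mem_setOf_eq, isM_iff_int, ElsM, RealM, PadicM, and_assoc]

end Pool.Agent.Y77.M9
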