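import Pool.Agent.Y77.M9.Ext
import Pool.Agent.Y362.MH.Bad
import Pool.Agent.Y362.MH.Norm

/-!
# The number of exceptional multihomogeneous forms
(job M9 of helper716, part 2: port of `Q/Exc.lean`, `Q/Exc2.lean`)
-/

namespace Pool.Agent.Y77.M9

open Pool.Agent.Y716.Q Pool.Agent.Y716.M

variable {r : ℕ} {n : Fin r → ℕ}

theorem isM_toF {d : Fin r → ℕ} {R : ℝ} {f : MvPolynomial (Var n) ℤ} (hf : IsM d R f) {D : ℕ}
    (hD : ∑ i, d i = D) : IsF D R f := by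
  refine ⟨?_, hf.2⟩
  intro s hs
  have h1 := hf.1 s (MvPolynomial.mem_support_iff.mpr hs)
  have h2 : ∑ a : Var n, s a = D := by
    rw [Fintype.sum_sigma, ← hD]
    exact Finset.sum_congr rfl (fun i _ => h1 i)
  rw [Finsupp.weight_apply, Finsupp.sum_fintype]
  · simpa using h2
  · simp

theorem aeval_le_oneM {d : Fin r → ℕ} {R : ℝ} {f : MvPolynomial (Var n) ℤ} (hf : IsM d R f)
    {ξ : Var n → ℝ} (hξ : ∀ i, |ξ i| ≤ 1) :
    |MvPolynomial.aeval ξ f| ≤ (monsM n d).card * R := by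
  classical
  have h1 : MvPolynomial.aeval ξ f =
      ∑ m ∈ monsM n d, ((f.coeff m : ℤ) : ℝ) * ∏ i, ξ i ^ m i := by
    rw [MvPolynomial.aeval_def, MvPolynomial.eval₂_eq']
    apply Finset.sum_subset
    · intro m hm
      exact hf.mem_monsM (MvPolynomial.mem_support_iff.mp hm)
    · intro m _ hm
      rw [MvPolynomial.notMem_support_iff.mp hm, map_zero, zero_mul]
  rw [h1]
  refine (Finset.abs_sum_le_sum_abs _ _).trans ?_
  have h2 : ∀ m ∈ monsM n d, |((f.coeff m : ℤ) : ℝ) * ∏ i, ξ i ^ m i| ≤ R := by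
    intro m hm
    rw [abs_mul]
    have h3 : |∏ i, ξ i ^ m i| ≤ 1 := by
      rw [Finset.abs_prod]
      apply Finset.prod_le_one
      · intro i _; exact abs_nonneg _
      · intro i _
        rw [abs_pow]
        exact pow_le_one₀ (abs_nonneg _) (hξ i)
    calc |((f.coeff m : ℤ) : ℝ)| * |∏ i, ξ i ^ m i| ≤ R * 1 :=
          mul_le_mul (hf.2 m) h3 (abs_nonneg _) hf.nonneg
      _ = R := mul_one R
  refine (Finset.sum_le_sum h2).trans ?_
  rw [Finset.sum_const, nsmul_eq_mul]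

/-- approximate zeros at all places -/
def LocSolM (f : MvPolynomial (Var n) ℤ) : Prop :=
  (∀ p : ℕ, p.Prime → ∀ E : ℕ, ∃ x : Var n → ℤ, Norm1 x ∧
    (p : ℤ) ^ E ∣ MvPolynomial.eval x f) ∧
  ∃ ξ : Var n → ℝ, Norm1 ξ ∧ (∀ a, |ξ a| ≤ 1) ∧ MvPolynomial.aeval ξ f = 0

/-- integral zeros which are primitive in every block -/
def SolM (f : MvPolynomial (Var n) ℤ) : Prop :=
  ∃ x : Var n → ℤ, (∀ i, Prim (bl x i)) ∧ MvPolynomial.eval x f = 0

/-- non-degenerate local data -/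
def GoodM (w : ℕ) (γ H : ℝ) (Q : ℕ) (f : MvPolynomial (Var n) ℤ) : Prop :=
  ∃ (S J : ℕ) (xc v : Var n → ℤ) (ξ : Var n → ℝ) (i₀ : Var n), PDataM w f S J xc v ∧
    S * J = Q ∧ Norm1 ξ ∧ (∀ i, |ξ i| ≤ 1) ∧
    MvPolynomial.aeval ξ f = 0 ∧ 2 * γ * H ≤ |MvPolynomial.aeval ξ (MvPolynomial.pderiv i₀ f)|

/-- the data of a class -/
def ClassDM (d : Fin r → ℕ) (w : ℕ) (γ η H : ℝ) (Q : ℕ) (f : MvPolynomial (Var n) ℤ) : Prop :=
  ∃ (S J : ℕ) (xc v : Var n → ℤ) (ξ : Var n → ℝ) (i₀ : Var n), PDataM w f S J xc v ∧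
    S * J = Q ∧ RDataM d H γ η f ξ i₀

theorem GoodM.shift {d : Fin r → ℕ} {e w : ℕ} (he : ∑ i, d i = e + 2) {γ η H Cf : ℝ} {Q : ℕ}
    {f g : MvPolynomial (Var n) ℤ} (hQ : 1 ≤ Q) (h : GoodM w γ H Q f) (hH : 0 ≤ H) (hη : 0 ≤ η)
    (hη1 : η ≤ 1)
    (hCf : ∀ (f : MvPolynomial (Var n) ℤ) (R : ℝ), IsF (e + 1) R f →
      ∀ x : Var n → ℝ, (∀ i, |x i| ≤ 1) → |MvPolynomial.aeval x f| ≤ Cf * R)
    (hηC : Cf * (e + 2) * η ≤ γ) (hf : IsM d H f) (hg : IsM d (η * H / Q) g) :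
    ClassDM d w γ η H Q (f - MvPolynomial.C (Q : ℤ) * g) := by
  obtain ⟨S, J, xc, v, ξ, i₀, h1, h2, h5, h6, h8, h9⟩ := h
  obtain ⟨v', hv'⟩ := shiftM h1 (-g)
  rw [mem'_neg f g h2] at hv'
  have hQr : (0:ℝ) < Q := by exact_mod_cast hQ
  have hQA : |((Q : ℤ) : ℝ)| * (η * H / Q) = η * H := by
    rw [Int.cast_natCast, abs_of_pos hQr]
    field_simp
  have hQg : IsM d (η * H) (MvPolynomial.C (Q : ℤ) * g) := by
    have := hg.C_mul (Q : ℤ)
    rwa [hQA] at this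
  have hηH : η * H ≤ H := mul_le_of_le_one_left hH hη1
  refine ⟨S, J, xc, v', ξ, i₀, hv', h2, ?_⟩
  refine ⟨(hf.sub hQg).mono (by linarith), h6, h5, ?_, ?_⟩
  · rw [map_sub, h8, zero_sub, abs_neg]
    exact aeval_le_oneM hQg h6
  · rw [map_sub, map_sub]
    have h10 := hCf _ _ ((isM_toF hQg he).pderiv i₀) ξ h6
    have h11 := abs_sub_abs_le_abs_sub (MvPolynomial.aeval ξ (MvPolynomial.pderiv i₀ f))
      (MvPolynomial.aeval ξ (MvPolynomial.pderiv i₀ (MvPolynomial.C (Q : ℤ) * g)))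
    have h12 : Cf * (((e + 1 : ℕ) : ℝ) + 1) * (η * H) ≤ γ * H := by
      have := mul_le_mul_of_nonneg_right hηC hH
      push_cast
      linarith
    push_cast at h10 h12
    linarith

theorem card_formsM_pos (d : Fin r → ℕ) {A : ℝ} (hA : 0 ≤ A) : 0 < (formsM n d A).card := by
  rw [card_formsM d hA]; positivity

theorem card_formsM_upper (d : Fin r → ℕ) {A R c : ℝ} (hA : 1 ≤ A) (hR : 0 ≤ R)
    (hc : 0 ≤ c) (h : 2 * R + 1 ≤ c * (2 * A - 1)) :
    ((formsM n d R).card : ℝ) ≤ c ^ (monsM n d).card * (formsM n d A).card := by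
  rw [card_formsM d hR, card_formsM d (by linarith)]
  push_cast
  rw [← mul_pow]
  apply pow_le_pow_left₀ (by positivity)
  have h1 := Nat.floor_le hR
  have h2 := Nat.sub_one_lt_floor A
  nlinarith

theorem card_formsM_lower (d : Fin r → ℕ) {A R c : ℝ} (hA : 0 ≤ A) (hR : 0 ≤ R)
    (hc : 0 ≤ c) (h : c * (2 * A + 1) ≤ 2 * R - 1) :
    c ^ (monsM n d).card * ((formsM n d A).card : ℝ) ≤ (formsM n d R).card := by
  rw [card_formsM d hR, card_formsM d hA]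
  push_cast
  rw [← mul_pow]
  apply pow_le_pow_left₀ (by positivity)
  have h1 := Nat.floor_le hA
  have h2 := Nat.sub_one_lt_floor R
  nlinarith

theorem formsM_mono {d : Fin r → ℕ} {R R' : ℝ} (h : R ≤ R') : formsM n d R ⊆ formsM n d R' := by
  intro f hf
  exact mem_formsM.mpr ((mem_formsM.mp hf).mono h)

open scoped Classical in
/-- averaging over the classes -/
theorem avg_countM {d : Fin r → ℕ} {e w : ℕ} (he : ∑ i, d i = e + 2) {γ η H Cf : ℝ} {Q : ℕ}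
    (hQ : 1 ≤ Q) (hH : 0 ≤ H) (hη : 0 ≤ η) (hη1 : η ≤ 1)
    (hCf : ∀ (f : MvPolynomial (Var n) ℤ) (R : ℝ), IsF (e + 1) R f →
      ∀ x : Var n → ℝ, (∀ i, |x i| ≤ 1) → |MvPolynomial.aeval x f| ≤ Cf * R)
    (hηC : Cf * (e + 2) * η ≤ γ) (q : MvPolynomial (Var n) ℤ → Prop) {ε : ℝ} (hε : 0 ≤ ε)
    (hcl : ∀ f, ClassDM d w γ η H Q f →
      (((formsM n d (η * H / Q)).filter (fun g =>
        q (f + MvPolynomial.C (Q : ℤ) * g))).card : ℝ) ≤
        ε * (formsM n d (η * H / Q)).card) :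
    (((formsM n d H).filter (fun f => GoodM w γ H Q f ∧ q f)).card : ℝ) ≤
      ε * (formsM n d (2 * H)).card := by
  obtain ⟨G', hG'⟩ : ∃ G', G' = formsM n d (η * H / Q) := ⟨_, rfl⟩
  rw [← hG'] at hcl
  have hQr : (0:ℝ) < Q := by exact_mod_cast hQ
  have hA0 : 0 ≤ η * H / Q := by positivity
  have hG0 : (0:ℝ) < G'.card := by
    rw [hG']; exact_mod_cast card_formsM_pos (n := n) d hA0
  have h1 : ((formsM n d H).filter (fun f => GoodM w γ H Q f ∧ q f)).card *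
      G'.card ≤
      ∑ f ∈ (formsM n d (2 * H)).filter (fun f => ClassDM d w γ η H Q f),
        (G'.filter (fun g => q (f + MvPolynomial.C (Q : ℤ) * g))).card := by
    rw [← Finset.card_product, ← Finset.card_sigma]
    apply Finset.card_le_card_of_injOn
      (fun r => (⟨r.1 - MvPolynomial.C (Q : ℤ) * r.2, r.2⟩ :
        (_ : MvPolynomial (Var n) ℤ) × MvPolynomial (Var n) ℤ))
    · rintro ⟨f, g⟩ hr
      simp only [Finset.coe_product, Set.mem_prod, Finset.mem_coe, Finset.mem_filter] at hr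
      obtain ⟨⟨h1, h2, h3⟩, h4⟩ := hr
      simp only [Finset.mem_coe, Finset.mem_sigma, Finset.mem_filter]
      have hg : IsM d (η * H / Q) g := by rw [hG'] at h4; exact mem_formsM.mp h4
      have hcd := h2.shift he hQ hH hη hη1 hCf hηC (mem_formsM.mp h1) hg
      refine ⟨⟨mem_formsM.mpr ?_, hcd⟩, h4, ?_⟩
      · obtain ⟨S, J, xc, v, ξ, i₀, _, _, h⟩ := hcd
        exact h.hform
      · have : f - MvPolynomial.C (Q : ℤ) * g + MvPolynomial.C (Q : ℤ) * g = f := by ring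
        rw [this]
        exact h3
    · rintro ⟨f, g⟩ _ ⟨f', g'⟩ _ heq
      simp only [Sigma.mk.injEq] at heq
      obtain ⟨h1, h2⟩ := heq
      have h2' : g = g' := eq_of_heq h2
      subst h2'
      have : f = f' := sub_left_injective h1
      rw [this]
  have h2 : (((formsM n d H).filter (fun f => GoodM w γ H Q f ∧ q f)).card : ℝ) *
      G'.card ≤ (ε * (formsM n d (2 * H)).card) * G'.card := by
    have h3 := (Nat.cast_le (α := ℝ)).mpr h1
    push_cast at h3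
    refine h3.trans ?_
    calc _ ≤ ((formsM n d (2 * H)).filter
            (fun f => ClassDM d w γ η H Q f)).card • (ε * (G'.card : ℝ)) :=
          Finset.sum_le_card_nsmul _ _ _ (fun f hf => hcl f (Finset.mem_filter.mp hf).2)
      _ = (((formsM n d (2 * H)).filter
            (fun f => ClassDM d w γ η H Q f)).card : ℝ) * (ε * (G'.card : ℝ)) := by
          rw [nsmul_eq_mul]
      _ ≤ ((formsM n d (2 * H)).card : ℝ) * (ε * (G'.card : ℝ)) := by
          apply mul_le_mul_of_nonneg_right _ (by positivity)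
          exact_mod_cast Finset.card_filter_le _ _
      _ = _ := by ring
  exact le_of_mul_le_mul_right h2 hG0

/-- degenerate real zeros -/
def BadRM (γ H : ℝ) (f : MvPolynomial (Var n) ℤ) : Prop :=
  ∃ ξ : Var n → ℝ, Norm1 ξ ∧ (∀ a, |ξ a| ≤ 1) ∧
      |MvPolynomial.aeval ξ f| ≤ γ ^ 2 * H ∧
      ∀ a, |MvPolynomial.aeval ξ (MvPolynomial.pderiv a f)| ≤ γ * H

theorem solM_of_zeroNear {η₀ : ℝ} {ξ : Var n → ℝ} {S : ℕ} {xc : Var n → ℤ}
    {f : MvPolynomial (Var n) ℤ} (h : ZeroNearM η₀ ξ S xc f) : SolM f := by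
  obtain ⟨x, h1, h2, _⟩ := h
  exact ⟨x, h1, h2⟩

open scoped Classical in
/-- Almost all forms with approximate zeros at all places have an integral zero. -/
theorem exc_countM (hr : 1 ≤ r) {d : Fin r → ℕ} (hd : ∀ i, 2 ≤ d i) (hcl : ClassStmtM n d)
    {ε : ℝ} (hε : 0 < ε) : ∃ H₀ : ℝ, ∀ H : ℝ, H₀ ≤ H →
    (((formsM n d H).filter (fun f => LocSolM f ∧ ¬ SolM f)).card : ℝ) ≤
        ε * (formsM n d H).card := by
  have hd1 : ∀ i, 1 ≤ d i := fun i => by have := hd i; omega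
  obtain ⟨e, he⟩ : ∃ e, ∑ i, d i = e + 2 := by
    have h1 : d ⟨0, hr⟩ ≤ ∑ i, d i :=
      Finset.single_le_sum (f := d) (fun i _ => Nat.zero_le _) (Finset.mem_univ _)
    have h2 := hd ⟨0, hr⟩
    exact ⟨∑ i, d i - 2, by omega⟩
  obtain ⟨M, hM⟩ : ∃ M, (monsM n d).card = M := ⟨_, rfl⟩
  obtain ⟨k, hk⟩ : ∃ k, ∏ i, (n i + 1) = k := ⟨_, rfl⟩
  have hM0 : (0:ℝ) < 3 ^ M := by positivity
  obtain ⟨w, hw1, hcl⟩ := hcl (ε / (4 * 3 ^ M)) (by positivity)
  obtain ⟨Cb, hCb0, hCb⟩ := Pool.Agent.Y362.MH.bad_count_M_real n d hd1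
  obtain ⟨Cf, hCf1, hCf⟩ := form_bounds (ι := Var n) (e + 1)
  have hCf0 : 0 < Cf := by linarith
  have hCf' : ∀ (f : MvPolynomial (Var n) ℤ) (R : ℝ), IsF (e + 1) R f →
      ∀ x : Var n → ℝ, (∀ i, |x i| ≤ 1) → |MvPolynomial.aeval x f| ≤ Cf * R := by
    intro f R hf x hx
    have := (hCf f R hf.1 hf.2 1 (by norm_num)).1 x hx
    rwa [one_pow, mul_one] at this
  obtain ⟨γ₂, hγ₂⟩ : ∃ γ₂ : ℝ, γ₂ = min 1 (ε / (4 * Cb * 3 ^ M)) := ⟨_, rfl⟩
  have hγ₂0 : 0 < γ₂ := by rw [hγ₂]; exact lt_min one_pos (by positivity)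
  have hγ₂1 : γ₂ ≤ 1 := by rw [hγ₂]; exact min_le_left _ _
  have hγ₂C : Cb * γ₂ ^ 2 * 3 ^ M ≤ ε / 4 := by
    have h1 : γ₂ ≤ ε / (4 * Cb * 3 ^ M) := by rw [hγ₂]; exact min_le_right _ _
    have h2 : γ₂ ^ 2 ≤ γ₂ := by
      rw [sq]; exact mul_le_of_le_one_left hγ₂0.le hγ₂1
    rw [le_div_iff₀ (by positivity)] at h1
    have h3 : Cb * 3 ^ M * γ₂ ^ 2 ≤ Cb * 3 ^ M * γ₂ := mul_le_mul_of_nonneg_left h2 (by positivity)
    linarith
  obtain ⟨γ, hγ⟩ : ∃ γ : ℝ, γ = γ₂ / 2 := ⟨_, rfl⟩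
  have hγ0 : 0 < γ := by rw [hγ]; positivity
  have hγ1 : γ ≤ 1 := by linarith
  obtain ⟨ℓ₀, hℓ₀⟩ : ∃ ℓ₀ : ℕ, (1 / 2 : ℝ) ^ ℓ₀ < ε / (4 * ((w + 1) * k * 3 ^ M) + 1) :=
    exists_pow_lt_of_lt_one (by positivity) (by norm_num)
  obtain ⟨ℓ, hℓ⟩ : ∃ ℓ : ℕ, ℓ = ℓ₀ + 1 := ⟨_, rfl⟩
  have hℓ1 : 1 ≤ ℓ := by omega
  have hℓε : (1 / 2 : ℝ) ^ ℓ * ((w + 1) * k * 3 ^ M) ≤ ε / 4 := by
    have h1 : (1 / 2 : ℝ) ^ ℓ ≤ (1 / 2) ^ ℓ₀ :=
      pow_le_pow_of_le_one (by norm_num) (by norm_num) (by omega)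
    have h2 : (0:ℝ) ≤ (w + 1) * k * 3 ^ M := by positivity
    have h3 := h1.trans hℓ₀.le
    rw [le_div_iff₀ (by positivity)] at h3
    have h4 : (0:ℝ) ≤ (1 / 2) ^ ℓ := by positivity
    linarith
  obtain ⟨Q, hQ⟩ : ∃ Q : ℕ, Q = (∏ p ∈ primesUpTo w, p) ^ (2 * ℓ) := ⟨_, rfl⟩
  have hQ1 : 1 ≤ Q := by
    rw [hQ]
    exact pow_pos (Finset.prod_pos (fun p hp => (mem_primesUpTo.mp hp).2.pos)) _
  obtain ⟨η₀, hη₀⟩ : ∃ η₀ : ℝ, η₀ = γ / (Cf * (e + 2)) := ⟨_, rfl⟩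
  have hη₀0 : 0 < η₀ := by rw [hη₀]; positivity
  obtain ⟨η, hη0, hη1, hηη₀, H₁, hH₁⟩ := hcl w le_rfl γ hγ0 hγ1 Q hQ1 η₀ hη₀0
  have hηC : Cf * (e + 2) * η ≤ γ := by
    have h1 := hηη₀
    rw [hη₀, le_div_iff₀ (by positivity)] at h1
    linarith
  refine ⟨max (max H₁ 2) (max (1 / γ₂ ^ 2) ((w : ℝ) ^ ℓ)), fun H hH => ?_⟩
  have hH1 : H₁ ≤ H := (le_max_left _ _).trans ((le_max_left _ _).trans hH)
  have hH2 : 2 ≤ H := (le_max_right _ _).trans ((le_max_left _ _).trans hH)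
  have hH3 : 1 / γ₂ ^ 2 ≤ H := (le_max_left _ _).trans ((le_max_right _ _).trans hH)
  have hH4 : (w : ℝ) ^ ℓ ≤ H := (le_max_right _ _).trans ((le_max_right _ _).trans hH)
  have hH0 : 0 < H := by linarith
  obtain ⟨G, hG⟩ : ∃ G : ℝ, ((formsM n d H).card : ℝ) = G := ⟨_, rfl⟩
  have hG0 : 0 < G := by
    rw [← hG]
    exact_mod_cast card_formsM_pos (n := n) d hH0.le
  have h2H : ((formsM n d (2 * H)).card : ℝ) ≤ 3 ^ M * G := by
    have := card_formsM_upper (n := n) d (A := H) (R := 2 * H) (c := 3)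
      (by linarith) (by linarith) (by norm_num) (by linarith)
    rwa [hM, hG] at this
  -- good forms
  have hgood : (((formsM n d H).filter (fun f => GoodM w γ H Q f ∧
      ¬ SolM f)).card : ℝ) ≤ ε / 4 * G := by
    have h1 := avg_countM (n := n) (d := d) (e := e) (w := w) he (γ := γ) (η := η) (H := H)
      (Cf := Cf) (Q := Q) hQ1 hH0.le hη0.le hη1 hCf' hηC (fun f => ¬ SolM f)
      (ε := ε / (4 * 3 ^ M)) (by positivity) (by
        rintro f ⟨S, J, xc, v, ξ, i₀, h1, h2, h6⟩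
        have h7 := hH₁ H hH1 f S J xc v ξ i₀ h1 h6 h2.le
        rw [h2] at h7
        refine (card_filter_le' _ _ _ (fun g _ hg hz => hg ?_)).trans h7
        have h9 := solM_of_zeroNear hz
        unfold mem' at h9
        rwa [h2] at h9)
    refine (card_filter_le' _ _ _ (fun _ _ h => h)).trans (h1.trans ?_)
    have h2 := mul_le_mul_of_nonneg_left h2H (by positivity : 0 ≤ ε / (4 * 3 ^ M))
    refine h2.trans (le_of_eq ?_)
    field_simp
  -- degenerate real zeros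
  have hbadR : (((formsM n d H).filter (fun f => BadRM γ₂ H f)).card : ℝ) ≤ ε / 4 * G := by
    have h1 := hCb γ₂ H hγ₂0 hγ₂1 (by
      rw [div_le_iff₀ (by positivity)] at hH3
      linarith)
    have h2 : (((formsM n d H).filter (fun f => BadRM γ₂ H f)).card : ℝ) ≤
        Cb * γ₂ ^ 2 * (formsM n d (2 * H)).card :=
      (card_filter_le' _ _ _ (fun _ _ h => h)).trans h1
    have h3 := mul_le_mul_of_nonneg_left h2H (by positivity : 0 ≤ Cb * γ₂ ^ 2)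
    have h4 := mul_le_mul_of_nonneg_right hγ₂C hG0.le
    linarith
  -- degenerate zeros modulo prime powers
  have hbadP : ∀ p ∈ primesUpTo w, (((formsM n d H).filter
      (fun f => BadAtM (p ^ ℓ) f)).card : ℝ) ≤ (1 / 2 : ℝ) ^ ℓ * (k * (3 ^ M * G)) := by
    intro p hp
    obtain ⟨hp1, hp2⟩ := mem_primesUpTo.mp hp
    have h1 := Pool.Agent.Y362.MH.bad_count_M_int (n := n) hd1 (p ^ ℓ)
      (Nat.pos_of_ne_zero (pow_ne_zero _ hp2.ne_zero)) H hH0.le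
    have h2 : (((formsM n d H).filter (fun f => BadAtM (p ^ ℓ) f)).card : ℝ) *
        ((p ^ ℓ : ℕ) : ℝ) ≤ k * ((formsM n d (H + (p ^ ℓ : ℕ))).card : ℝ) := by
      rw [← hk]
      have h1' := (Nat.cast_le (α := ℝ)).mpr h1
      rw [Nat.cast_mul, Nat.cast_mul] at h1'
      exact (mul_le_mul_of_nonneg_right (card_filter_le' _ _ _ (fun _ _ h => h))
        (Nat.cast_nonneg _)).trans h1'
    have h3 : ((p ^ ℓ : ℕ) : ℝ) ≤ H := by
      refine le_trans ?_ hH4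
      push_cast
      apply pow_le_pow_left₀ (Nat.cast_nonneg _)
      exact_mod_cast hp1
    have h4 : ((formsM n d (H + (p ^ ℓ : ℕ))).card : ℝ) ≤ 3 ^ M * G := by
      refine le_trans ?_ h2H
      exact_mod_cast Finset.card_le_card (formsM_mono (by linarith))
    have h5 : (2:ℝ) ^ ℓ ≤ ((p ^ ℓ : ℕ) : ℝ) := by
      push_cast
      apply pow_le_pow_left₀ (by norm_num)
      exact_mod_cast hp2.two_le
    have h6 : (((formsM n d H).filter (fun f => BadAtM (p ^ ℓ) f)).card : ℝ) * 2 ^ ℓ ≤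
        k * (3 ^ M * G) :=
      (mul_le_mul_of_nonneg_left h5 (Nat.cast_nonneg _)).trans
        (h2.trans (mul_le_mul_of_nonneg_left h4 (Nat.cast_nonneg _)))
    rw [one_div, inv_pow, inv_mul_eq_div, le_div_iff₀ (by positivity)]
    exact h6
  -- covering
  have hcov : (formsM n d H).filter (fun f => LocSolM f ∧ ¬ SolM f) ⊆
      ((formsM n d H).filter (fun f => GoodM w γ H Q f ∧ ¬ SolM f)) ∪
      ((primesUpTo w).biUnion (fun p => (formsM n d H).filter (fun f => BadAtM (p ^ ℓ) f)) ∪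
      (formsM n d H).filter (fun f => BadRM γ₂ H f)) := by
    intro f hf
    obtain ⟨hf1, hf2, hf3⟩ := Finset.mem_filter.mp hf
    rw [Finset.mem_union, Finset.mem_union, Finset.mem_biUnion, Finset.mem_filter,
      Finset.mem_filter]
    by_cases hbf : ∃ p ∈ primesUpTo w, BadAtM (p ^ ℓ) f
    · obtain ⟨p, hp, hb⟩ := hbf
      right; left
      exact ⟨p, hp, Finset.mem_filter.mpr ⟨hf1, hb⟩⟩
    by_cases hbr : BadRM γ₂ H f
    · right; right; exact ⟨hf1, hbr⟩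
    left
    refine ⟨hf1, ?_, hf3⟩
    push Not at hbf
    obtain ⟨S, J, xc, v, h1, h2⟩ := exists_stableM hr (w := w) (ℓ := ℓ) (f := f) hℓ1
      (fun p hp => ⟨hf2.1 p (mem_primesUpTo.mp hp).2 _, hbf p hp⟩)
    obtain ⟨ξ, hξr, hξ1, hξ0⟩ := hf2.2
    have h5 : ∃ i₀, γ₂ * H ≤ |MvPolynomial.aeval ξ (MvPolynomial.pderiv i₀ f)| := by
      by_contra hcon
      push Not at hcon
      apply hbr
      refine ⟨ξ, hξr, hξ1, ?_, fun i => (hcon i).le⟩
      rw [hξ0, abs_zero]; positivity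
    obtain ⟨i₀, hi₀⟩ := h5
    refine ⟨S, J, xc, v, ξ, i₀, h1, by rw [h2, hQ], hξr, hξ1, hξ0, ?_⟩
    have : 2 * γ * H = γ₂ * H := by rw [hγ]; ring
    rw [this]; exact hi₀
  have h1 : (((formsM n d H).filter
      (fun f => LocSolM f ∧ ¬ SolM f)).card : ℝ) ≤
      (((formsM n d H).filter (fun f => GoodM w γ H Q f ∧
        ¬ SolM f)).card : ℝ) +
      ((∑ p ∈ primesUpTo w, (((formsM n d H).filter (fun f => BadAtM (p ^ ℓ) f)).card : ℝ)) +
      (((formsM n d H).filter (fun f => BadRM γ₂ H f)).card : ℝ)) := by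
    have h2 := (Finset.card_le_card hcov).trans ((Finset.card_union_le _ _).trans
      (Nat.add_le_add_left ((Finset.card_union_le _ _).trans
        (Nat.add_le_add_right Finset.card_biUnion_le _)) _))
    exact_mod_cast h2
  have h2 : (∑ p ∈ primesUpTo w, (((formsM n d H).filter
      (fun f => BadAtM (p ^ ℓ) f)).card : ℝ)) ≤ ε / 4 * G := by
    calc _ ≤ (primesUpTo w).card • ((1 / 2 : ℝ) ^ ℓ * (k * (3 ^ M * G))) :=
          Finset.sum_le_card_nsmul _ _ _ hbadP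
      _ = ((primesUpTo w).card : ℝ) * ((1 / 2 : ℝ) ^ ℓ * (k * (3 ^ M * G))) := by
          rw [nsmul_eq_mul]
      _ ≤ (w + 1) * ((1 / 2 : ℝ) ^ ℓ * (k * (3 ^ M * G))) := by
          apply mul_le_mul_of_nonneg_right _ (by positivity)
          have : (primesUpTo w).card ≤ w + 1 := by
            unfold primesUpTo
            refine (Finset.card_filter_le _ _).trans ?_
            rw [Finset.card_range]
          exact_mod_cast this
      _ = ((1 / 2 : ℝ) ^ ℓ * ((w + 1) * k * 3 ^ M)) * G := by ring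
      _ ≤ ε / 4 * G := mul_le_mul_of_nonneg_right hℓε hG0.le
  rw [hG]
  have h3 : 0 < ε * G := by positivity
  linarith

end Pool.Agent.Y77.M9
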