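import Pool.Agent.Y716.M.Data
import Pool.Agent.Y716.Q.Final

/-!
# The `p`-adic data of a multihomogeneous form without degenerate approximate zeros
(job M9 of helper716, part 1: port of `Q/Extract.lean`)
-/

namespace Pool.Agent.Y77.M9

open Pool.Agent.Y716.Q Pool.Agent.Y716.M

variable {r : ℕ} {n : Fin r → ℕ}

/-- `f` has an approximate zero modulo `Q`, normalised in every block, at which the gradient
vanishes -/
def BadAtM (Q : ℕ) (f : MvPolynomial (Var n) ℤ) : Prop :=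
  ∃ x : Var n → ℤ, Norm1 x ∧ (Q : ℤ) ∣ MvPolynomial.eval x f ∧
    ∀ a, (Q : ℤ) ∣ MvPolynomial.eval x (MvPolynomial.pderiv a f)

theorem exists_stableM (hr : 1 ≤ r) {w ℓ : ℕ} (hℓ : 1 ≤ ℓ) {f : MvPolynomial (Var n) ℤ}
    (hfin : ∀ p ∈ primesUpTo w, (∃ x : Var n → ℤ, Norm1 x ∧
      (p : ℤ) ^ (2 * ℓ) ∣ MvPolynomial.eval x f) ∧ ¬ BadAtM (p ^ ℓ) f) :
    ∃ (S J : ℕ) (xc v : Var n → ℤ),
      PDataM w f S J xc v ∧ S * J = (∏ p ∈ primesUpTo w, p) ^ (2 * ℓ) := by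
  classical
  -- data at the primes
  have hdat : ∀ p ∈ primesUpTo w, ∃ (x : Var n → ℤ) (j : ℕ), Norm1 x ∧
      (p : ℤ) ^ (2 * ℓ) ∣ MvPolynomial.eval x f ∧ j < ℓ ∧
      (∀ i, (p : ℤ) ^ j ∣ MvPolynomial.eval x (MvPolynomial.pderiv i f)) ∧
      (∃ i, ¬ (p : ℤ) ^ (j + 1) ∣ MvPolynomial.eval x (MvPolynomial.pderiv i f)) := by
    intro p hp
    obtain ⟨⟨x, hx, hd⟩, hb⟩ := hfin p hp
    have : ¬ ∀ i, (p : ℤ) ^ ℓ ∣ MvPolynomial.eval x (MvPolynomial.pderiv i f) := by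
      intro h
      refine hb ⟨x, hx, ?_, ?_⟩
      · push_cast
        exact (pow_dvd_pow (p : ℤ) (by omega)).trans hd
      · intro i
        push_cast
        exact h i
    obtain ⟨j, hj, h1, h2⟩ := grad_level _ this
    exact ⟨x, j, hx, hd, hj, h1, h2⟩
  choose! xP jP hrP hval hjlt hgr hgr' using hdat
  have hcopZ : ∀ p ∈ primesUpTo w, ∀ q ∈ primesUpTo w, p ≠ q → ∀ a b : ℕ,
      IsCoprime ((p : ℤ) ^ a) ((q : ℤ) ^ b) := by
    intro p hp q hq hne a b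
    exact (Nat.isCoprime_iff_coprime.mpr (primes_coprime hp hq hne)).pow
  -- Chinese remainder theorem
  have hcrt : ∀ i, ∃ y : ℤ, ∀ p ∈ primesUpTo w, (p : ℤ) ^ (2 * ℓ) ∣ y - xP p i := by
    intro i
    have := Ideal.exists_forall_sub_mem_ideal (R := ℤ)
      (I := fun p : primesUpTo w => Ideal.span {((p : ℕ) : ℤ) ^ (2 * ℓ)}) (by
        intro p q hpq
        simp only [Function.onFun]
        rw [Ideal.isCoprime_span_singleton_iff]
        exact hcopZ _ p.2 _ q.2 (fun h => hpq (Subtype.ext h)) _ _) (fun p => xP p i)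
    obtain ⟨y, hy⟩ := this
    exact ⟨y, fun p hp => Ideal.mem_span_singleton.mp (hy ⟨p, hp⟩)⟩
  choose xc hxc using hcrt
  have hxc' : ∀ p ∈ primesUpTo w, ∀ i, (p : ℤ) ^ (2 * ℓ) ∣ xc i - xP p i := fun p hp i => hxc i p hp
  obtain ⟨S, hS⟩ : ∃ S : ℕ, S = ∏ p ∈ primesUpTo w, p ^ (2 * ℓ - jP p) := ⟨_, rfl⟩
  obtain ⟨J, hJ⟩ : ∃ J : ℕ, J = ∏ p ∈ primesUpTo w, p ^ jP p := ⟨_, rfl⟩
  have hSJ : S * J = (∏ p ∈ primesUpTo w, p) ^ (2 * ℓ) := by
    rw [hS, hJ, ← Finset.prod_mul_distrib, ← Finset.prod_pow]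
    refine Finset.prod_congr rfl (fun p hp => ?_)
    rw [← pow_add]
    congr 1
    have := hjlt p hp
    omega
  have hS0 : 0 < S := by
    rw [hS]
    exact Finset.prod_pos (fun p hp => pow_pos (mem_primesUpTo.mp hp).2.pos _)
  have hJ0 : 0 < J := by
    rw [hJ]
    exact Finset.prod_pos (fun p hp => pow_pos (mem_primesUpTo.mp hp).2.pos _)
  -- gradient at xc
  have hgc : ∀ p ∈ primesUpTo w, ∀ i, (p : ℤ) ^ (2 * ℓ) ∣
      MvPolynomial.eval xc (MvPolynomial.pderiv i f)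
      - MvPolynomial.eval (xP p) (MvPolynomial.pderiv i f) := fun p hp i =>
    Pool.Agent.Y67.HP.eval_congr_dvd' _ (hxc' p hp)
  have hJg : ∀ i, (J : ℤ) ∣ MvPolynomial.eval xc (MvPolynomial.pderiv i f) := by
    intro i
    rw [hJ]
    push_cast
    apply Finset.prod_dvd_of_coprime
    · intro p hp q hq hne
      exact hcopZ p hp q hq hne _ _
    intro p hp
    have h1 := (pow_dvd_pow (p : ℤ) (by have := hjlt p hp; omega : jP p ≤ 2 * ℓ)).trans (hgc p hp i)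
    have := dvd_add h1 (hgr p hp i)
    simpa using this
  choose v hv using hJg
  have hpB : ∀ p : ℕ, p.Prime → p ≤ w → ∀ i : Fin r, ∃ j, ¬ (p : ℤ) ∣ xc ⟨i, j⟩ := by
    intro p hp1 hp2 i
    have hp : p ∈ primesUpTo w := mem_primesUpTo.mpr ⟨hp2, hp1⟩
    obtain ⟨j, hj⟩ := hrP p hp i
    refine ⟨j, fun hd => ?_⟩
    have h1 := (dvd_pow_self (p : ℤ) (by omega : 2 * ℓ ≠ 0)).trans (hxc' p hp ⟨i, j⟩)
    rw [hj] at h1
    have := dvd_sub hd h1
    rw [sub_sub_cancel] at this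
    have h3 : (p : ℕ) ∣ 1 := by exact_mod_cast this
    exact hp1.one_lt.ne' (Nat.dvd_one.mp h3)
  refine ⟨S, J, xc, v, ⟨?_, hpB⟩, hSJ⟩
  refine { hS := hS0, hJ := hJ0, hJS := ?_, hval := ?_, hgrad := hv, hPJ := ?_, hv := ?_,
           hprim := ?_, hSW := ?_ }
  · rw [hS, hJ]
    apply Finset.prod_dvd_prod_of_dvd
    intro p hp
    have := hjlt p hp
    exact pow_dvd_pow p (by omega)
  · rw [hSJ, ← Finset.prod_pow]
    push_cast
    apply Finset.prod_dvd_of_coprime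
    · intro p hp q hq hne
      exact hcopZ p hp q hq hne _ _
    intro p hp
    have := dvd_add (Pool.Agent.Y67.HP.eval_congr_dvd' f (hxc' p hp)) (hval p hp)
    simpa using this
  · intro p hp1 hp2
    have hp : p ∈ primesUpTo w := mem_primesUpTo.mpr ⟨hp2, hp1⟩
    rw [hS, hJ, ← Finset.mul_prod_erase _ _ hp, ← Finset.mul_prod_erase _ _ hp, ← mul_assoc,
      ← pow_succ']
    have hjP := hjlt p hp
    apply mul_dvd_mul
    · exact pow_dvd_pow p (by omega)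
    · apply Finset.prod_dvd_prod_of_dvd
      intro q hq
      have := hjlt q (Finset.mem_of_mem_erase hq)
      exact pow_dvd_pow q (by omega)
  · intro p hp1 hp2
    have hp : p ∈ primesUpTo w := mem_primesUpTo.mpr ⟨hp2, hp1⟩
    obtain ⟨i, hi⟩ := hgr' p hp
    refine ⟨i, fun hd => hi ?_⟩
    have hjP := hjlt p hp
    have h1 : (p : ℤ) ^ (jP p + 1) ∣ MvPolynomial.eval xc (MvPolynomial.pderiv i f) := by
      rw [hv i, pow_succ]
      apply mul_dvd_mul _ hd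
      rw [hJ]
      push_cast
      exact Finset.dvd_prod_of_mem (fun p : ℕ => (p : ℤ) ^ jP p) hp
    have h2 := (pow_dvd_pow (p : ℤ) (by omega : jP p + 1 ≤ 2 * ℓ)).trans (hgc p hp i)
    have := dvd_sub h1 h2
    simpa using this
  · intro p hp1 hp2
    obtain ⟨j, hj⟩ := hpB p hp1 hp2 ⟨0, hr⟩
    exact ⟨_, hj⟩
  · intro p hp1 hpS
    rw [hS] at hpS
    obtain ⟨q, hq, hpq⟩ := (Prime.dvd_finset_prod_iff hp1.prime _).mp hpS
    have h1 := hp1.dvd_of_dvd_pow hpq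
    have h2 := (mem_primesUpTo.mp hq)
    have h3 := (Nat.prime_dvd_prime_iff_eq hp1 h2.2).mp h1
    rw [h3]; exact h2.1

/-- the data are preserved when the form is changed by a multiple of the modulus -/
theorem shiftM {w : ℕ} {fc : MvPolynomial (Var n) ℤ} {S J : ℕ} {xc v : Var n → ℤ}
    (h : PDataM w fc S J xc v) (g : MvPolynomial (Var n) ℤ) :
    ∃ v', PDataM w (mem' fc S J g) S J xc v' := by
  obtain ⟨v', hv'⟩ := h.toP.shift g
  exact ⟨v', hv', h.hprimB⟩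

end Pool.Agent.Y77.M9
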